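import Pool.Agent.L7h17.RF.Stm

/-!
# Project RF: the double commutant argument (S_BIC)
-/

set_option autoImplicit false
set_option linter.unusedSectionVars false

open Filter Topology
open scoped InnerProductSpace

namespace Pool.Agent.L7h97.RF

open Pool.Agent.L7h17.RF

noncomputable section

variable {K : Type} [NormedAddCommGroup K] [InnerProductSpace ℂ K] [CompleteSpace K]

/-- The Hilbert space of the square summable sequences. -/
abbrev HS (K : Type) [NormedAddCommGroup K] : Type := lp (fun _ : ℕ => K) 2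

theorem mem2 {f : ℕ → K} (h : Summable fun i => ‖f i‖ ^ 2) : Memℓp f 2 := by
  apply memℓp_gen
  simpa using h

theorem sum2 (f : HS K) : Summable fun i => ‖f i‖ ^ 2 := by
  have h := (lp.memℓp f).summable (by simp)
  simpa using h

theorem norm2 (f : HS K) : ‖f‖ ^ 2 = ∑' i, ‖f i‖ ^ 2 := by
  have h := lp.norm_rpow_eq_tsum (p := 2) (by simp) f
  simpa using h

theorem mem_dg (S : Op K) (f : HS K) : Memℓp (fun i => S (f i)) 2 := by
  apply mem2
  refine Summable.of_nonneg_of_le (fun i => by positivity) (fun i => ?_)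
    ((sum2 f).mul_left (‖S‖ ^ 2))
  rw [← mul_pow]
  exact pow_le_pow_left₀ (norm_nonneg _) (S.le_opNorm _) 2

/-- The diagonal operator. -/
def dg (S : Op K) : HS K →L[ℂ] HS K :=
  LinearMap.mkContinuous
    { toFun := fun f => ⟨fun i => S (f i), mem_dg S f⟩
      map_add' := fun f g => by
        ext i
        exact S.map_add _ _
      map_smul' := fun c f => by
        ext i
        exact S.map_smul _ _ } ‖S‖ fun f => by
    have h1 : ‖(⟨fun i => S (f i), mem_dg S f⟩ : HS K)‖ ^ 2 ≤ (‖S‖ * ‖f‖) ^ 2 := by
      rw [norm2, mul_pow, norm2 f, ← tsum_mul_left]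
      refine Summable.tsum_le_tsum (fun i => ?_) (sum2 _) ((sum2 f).mul_left _)
      rw [← mul_pow]
      exact pow_le_pow_left₀ (norm_nonneg _) (S.le_opNorm _) 2
    exact le_of_pow_le_pow_left₀ two_ne_zero (by positivity) h1

theorem dg_apply (S : Op K) (f : HS K) (i : ℕ) : dg S f i = S (f i) := rfl

theorem dg_single (S : Op K) (j : ℕ) (u : K) :
    dg S (lp.single 2 j u) = lp.single 2 j (S u) := by
  ext i
  rw [dg_apply, lp.single_apply, lp.single_apply]
  by_cases h : i = j
  · subst h
    rw [Pi.single_eq_same, Pi.single_eq_same]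
  · rw [Pi.single_eq_of_ne h, Pi.single_eq_of_ne h, map_zero]

theorem s_BIC : S_BIC := by
  intro G K _ _ _ _ V hV T hT ξ η hξ hη hort
  let x : HS K := ⟨ξ, mem2 hξ⟩
  let y : HS K := ⟨η, mem2 hη⟩
  have hx : ∀ i, x i = ξ i := fun _ => rfl
  have hy : ∀ i, y i = η i := fun _ => rfl
  let M0 : Submodule ℂ (HS K) := Submodule.span ℂ (Set.range fun s => dg (V s) x)
  let M : Submodule ℂ (HS K) := M0.topologicalClosure
  -- invariance
  have hM0 : ∀ s, ∀ f ∈ M0, dg (V s) f ∈ M0 := by
    intro s f hf
    induction hf using Submodule.span_induction with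
    | mem f hf =>
      obtain ⟨t, rfl⟩ := hf
      apply Submodule.subset_span
      refine ⟨s * t, ?_⟩
      ext i
      show V (s * t) (x i) = V s (V t (x i))
      rw [hV.mul]
      rfl
    | zero => rw [map_zero]; exact M0.zero_mem
    | add f g _ _ hf hg => rw [map_add]; exact M0.add_mem hf hg
    | smul c f _ hf => rw [map_smul]; exact M0.smul_mem c hf
  have hM : ∀ s, ∀ f ∈ M, dg (V s) f ∈ M := by
    intro s f hf
    have h1 : (f : HS K) ∈ closure (M0 : Set (HS K)) := hf
    have h2 : dg (V s) f ∈ closure (M0 : Set (HS K)) :=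
      map_mem_closure (dg (V s)).continuous h1 fun g hg => hM0 s g hg
    exact h2
  have hadj : ∀ s (f g : HS K), ⟪dg (V s) f, g⟫_ℂ = ⟪f, dg (V s⁻¹) g⟫_ℂ := by
    intro s f g
    rw [lp.inner_eq_tsum, lp.inner_eq_tsum]
    refine tsum_congr fun i => ?_
    rw [dg_apply, dg_apply]
    exact hV.inv s _ _
  have hMo : ∀ s, ∀ f ∈ Mᗮ, dg (V s) f ∈ Mᗮ := by
    intro s f hf
    rw [Submodule.mem_orthogonal'] at hf ⊢
    intro g hg
    rw [hadj]
    exact hf _ (hM _ _ hg)
  have : CompleteSpace M := M0.isClosed_topologicalClosure.completeSpace_coe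
  let p : HS K →L[ℂ] HS K := M.starProjection
  have hpD : ∀ s f, p (dg (V s) f) = dg (V s) (p f) := by
    intro s f
    apply Submodule.eq_starProjection_of_mem_orthogonal (hM s _ (M.starProjection_apply_mem f))
    rw [← map_sub]
    exact hMo s _ (M.sub_starProjection_mem_orthogonal f)
  -- the matrix entries
  let q : ℕ → ℕ → Op K := fun i j =>
    (lp.evalCLM ℂ (fun _ : ℕ => K) 2 i).comp
      (p.comp (lp.singleContinuousLinearMap ℂ (fun _ : ℕ => K) 2 j))
  have hq : ∀ i j u, q i j u = p (lp.single 2 j u) i := fun i j u => rfl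
  have hqV : ∀ i j s, q i j * V s = V s * q i j := by
    intro i j s
    ext u
    show q i j (V s u) = V s (q i j u)
    rw [hq, hq, ← dg_single, hpD, dg_apply]
  have hqT : ∀ i j, q i j * T = T * q i j := fun i j => hT _ fun s => hqV i j s
  have hpT : p.comp (dg T) = (dg T).comp p := by
    apply lp.ext_continuousLinearMap (by norm_num)
    intro j
    ext u i
    show p (dg T (lp.single 2 j u)) i = dg T (p (lp.single 2 j u)) i
    rw [dg_single, dg_apply, ← hq, ← hq]
    exact congrArg (fun A : Op K => A u) (hqT i j)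
  have hxM : x ∈ M := by
    apply M0.le_topologicalClosure
    apply Submodule.subset_span
    refine ⟨1, ?_⟩
    ext i
    show V 1 (x i) = x i
    rw [hV.one]
    rfl
  have hTx : dg T x ∈ M := by
    have h1 : p x = x := Submodule.starProjection_eq_self_iff.2 hxM
    have h2 : p (dg T x) = dg T x := by
      have h3 := congrArg (fun A : HS K →L[ℂ] HS K => A x) hpT
      have h4 : p (dg T x) = dg T (p x) := h3
      rw [h4, h1]
    rw [← h2]
    exact M.starProjection_apply_mem _
  have hyM : y ∈ Mᗮ := by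
    have h0 : y ∈ M0ᗮ := by
      rw [Submodule.mem_orthogonal']
      intro g hg
      induction hg using Submodule.span_induction with
      | mem g hg =>
        obtain ⟨s, rfl⟩ := hg
        rw [lp.inner_eq_tsum]
        exact hort s
      | zero => rw [inner_zero_right]
      | add f g _ _ hf hg => rw [inner_add_right, hf, hg, add_zero]
      | smul c f _ hf => rw [inner_smul_right, hf, mul_zero]
    have h1 : Mᗮ = M0ᗮ := Submodule.orthogonal_closure M0
    rw [h1]
    exact h0
  have hfin : ⟪y, dg T x⟫_ℂ = 0 := (Submodule.mem_orthogonal' _ _).1 hyM _ hTx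
  rw [lp.inner_eq_tsum] at hfin
  exact hfin

end

end Pool.Agent.L7h97.RF
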