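import Pool.Agent.L7h17.RF.Stm

/-!
# Project RF: spectral blocks of a positive operator (S_BLK)
-/

set_option autoImplicit false
set_option linter.unusedSectionVars false
set_option linter.unusedVariables false

open Filter Topology
open scoped InnerProductSpace

namespace Pool.Agent.L7h97.RF

open Pool.Agent.L7h17.RF

noncomputable section

variable {K : Type} [NormedAddCommGroup K] [InnerProductSpace ℂ K] [CompleteSpace K]

theorem re_mono {A B : Op K} (h : A ≤ B) (y : K) : (⟪A y, y⟫_ℂ).re ≤ (⟪B y, y⟫_ℂ).re := by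
  have h1 := ((ContinuousLinearMap.le_def A B).1 h).re_inner_nonneg_left y
  rw [sub_apply, inner_sub_left, map_sub] at h1
  have h2 : RCLike.re ⟪B y, y⟫_ℂ = (⟪B y, y⟫_ℂ).re := rfl
  have h3 : RCLike.re ⟪A y, y⟫_ℂ = (⟪A y, y⟫_ℂ).re := rfl
  rw [h2, h3] at h1
  linarith

/-- The functions. -/
def fj (j : ℕ) (x : ℝ) : ℝ := min 1 (j * x)

theorem fj_cont (j : ℕ) : Continuous (fj j) := by
  unfold fj
  fun_prop

/-- The spectral operators. -/
def EE (h : Op K) (j : ℕ) : Op K := cfc (fj j) h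

section

variable {h : Op K} (hs : IsSelfAdjoint h) (hp : ∀ y, 0 ≤ (⟪h y, y⟫_ℂ).re)

include hs hp in
theorem h_nonneg : 0 ≤ h := by
  rw [ContinuousLinearMap.nonneg_iff_isPositive, ContinuousLinearMap.isPositive_def']
  exact ⟨hs, hp⟩

include hs hp in
theorem spec_nonneg : ∀ x ∈ spectrum ℝ h, 0 ≤ x := fun x hx =>
  spectrum_nonneg_of_nonneg (h_nonneg hs hp) hx

theorem EE_self (j : ℕ) : IsSelfAdjoint (EE h j) := cfc_predicate _ _

include hs in
theorem EE_comm (j : ℕ) (S : Op K) (hS : S * h = h * S) : S * EE h j = EE h j * S := by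
  have h1 : Commute h S := hS.symm
  exact (h1.cfc_real (fj j)).eq.symm

include hs hp in
theorem EE_mono {i j : ℕ} (hij : i ≤ j) : EE h i ≤ EE h j := by
  unfold EE
  refine cfc_mono (fun x hx => ?_) (fj_cont i).continuousOn (fj_cont j).continuousOn
  have hx0 := spec_nonneg hs hp x hx
  unfold fj
  apply min_le_min le_rfl
  have : (i : ℝ) ≤ j := by exact_mod_cast hij
  exact mul_le_mul_of_nonneg_right this hx0

theorem EE_le_one (j : ℕ) : EE h j ≤ 1 := cfc_le_one _ _ fun _ _ => min_le_left _ _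

include hs hp in
theorem EE_nonneg (j : ℕ) : 0 ≤ EE h j := by
  refine cfc_nonneg fun x hx => ?_
  have hx0 := spec_nonneg hs hp x hx
  unfold fj
  exact le_min zero_le_one (by positivity)

include hs in
theorem EE_le (j : ℕ) : EE h j ≤ (j : ℝ) • h := by
  rw [← cfc_const_mul_id (j : ℝ) h hs]
  unfold EE
  exact cfc_mono (fun x _ => min_le_right _ _) (fj_cont j).continuousOn
    (by fun_prop)

include hs in
theorem EE_small (j : ℕ) (y : K) : (⟪EE h j y, y⟫_ℂ).re ≤ j * (⟪h y, y⟫_ℂ).re := by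
  have h1 := re_mono (EE_le hs j) y
  refine h1.trans (le_of_eq ?_)
  rw [smul_apply]
  have h2 : ((j : ℝ) • h y) = ((j : ℂ)) • h y := by
    rw [← Complex.ofReal_natCast]
    exact (Complex.coe_smul _ _).symm
  rw [h2, inner_smul_left]
  simp

include hs hp in
theorem EE_diff_sq (a b : ℕ) (hab : a ≤ b) :
    (EE h b - EE h a) * (EE h b - EE h a) ≤ EE h b - EE h a := by
  have hc : ContinuousOn (fun x => fj b x - fj a x) (spectrum ℝ h) :=
    ((fj_cont b).sub (fj_cont a)).continuousOn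
  have h1 : EE h b - EE h a = cfc (fun x => fj b x - fj a x) h := by
    unfold EE
    exact (cfc_sub (fj b) (fj a) h (fj_cont b).continuousOn (fj_cont a).continuousOn).symm
  rw [h1, ← cfc_mul _ _ h hc hc]
  refine cfc_mono (fun x hx => ?_) (hc.mul hc) hc
  have hx0 := spec_nonneg hs hp x hx
  have h2 : 0 ≤ fj b x - fj a x := by
    unfold fj
    have : (a : ℝ) ≤ b := by exact_mod_cast hab
    have := min_le_min (le_refl (1 : ℝ)) (mul_le_mul_of_nonneg_right this hx0)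
    linarith
  have h3 : fj b x - fj a x ≤ 1 := by
    have h4 : fj b x ≤ 1 := min_le_left _ _
    have h5 : 0 ≤ fj a x := le_min zero_le_one (by positivity)
    linarith
  nlinarith

include hs hp in
theorem EE_h (j : ℕ) (hj : 1 ≤ j) (u : K) : ‖(1 - EE h j) (h u)‖ ≤ 1 / j * ‖u‖ := by
  have hj' : (0 : ℝ) < j := by exact_mod_cast hj
  have hc1 : ContinuousOn (fun x : ℝ => 1 - fj j x) (spectrum ℝ h) :=
    (continuous_const.sub (fj_cont j)).continuousOn
  have h1 : (1 - EE h j) * h = cfc (fun x : ℝ => (1 - fj j x) * x) h := by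
    have h2 : cfc (fun x : ℝ => 1 - fj j x) h = 1 - EE h j := by
      unfold EE
      rw [cfc_sub (fun _ => (1 : ℝ)) (fj j) h continuousOn_const (fj_cont j).continuousOn,
        cfc_const_one ℝ h hs]
    rw [cfc_mul (fun x : ℝ => 1 - fj j x) (fun x : ℝ => x) h hc1 continuousOn_id, h2,
      cfc_id' ℝ h hs]
  have h2 : ‖(1 - EE h j) * h‖ ≤ 1 / j := by
    rw [h1]
    refine norm_cfc_le (by positivity) fun x hx => ?_
    have hx0 := spec_nonneg hs hp x hx
    have h3 : 0 ≤ 1 - fj j x := by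
      have : fj j x ≤ 1 := min_le_left _ _
      linarith
    rw [Real.norm_eq_abs, abs_of_nonneg (mul_nonneg h3 hx0)]
    rw [le_div_iff₀ hj']
    unfold fj
    rcases le_total 1 (j * x) with h4 | h4
    · rw [min_eq_left h4]
      simp
    · rw [min_eq_right h4]
      nlinarith [mul_nonneg hj'.le hx0]
  have h3 := ((1 - EE h j) * h).le_opNorm u
  exact h3.trans (mul_le_mul_of_nonneg_right h2 (norm_nonneg _))

include hs in
theorem one_sub_EE_norm (hp : ∀ y, 0 ≤ (⟪h y, y⟫_ℂ).re) (j : ℕ) (y : K) :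
    ‖(1 - EE h j) y‖ ≤ ‖y‖ := by
  have h2 : cfc (fun x : ℝ => 1 - fj j x) h = 1 - EE h j := by
    unfold EE
    rw [cfc_sub (fun _ => (1 : ℝ)) (fj j) h continuousOn_const (fj_cont j).continuousOn,
      cfc_const_one ℝ h hs]
  have h3 : ‖1 - EE h j‖ ≤ 1 := by
    rw [← h2]
    refine norm_cfc_le zero_le_one fun x hx => ?_
    have hx0 := spec_nonneg hs hp x hx
    have h4 : fj j x ≤ 1 := min_le_left _ _
    have h5 : 0 ≤ fj j x := le_min zero_le_one (by positivity)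
    rw [Real.norm_eq_abs, abs_le]
    constructor <;> linarith
  have h4 := (1 - EE h j).le_opNorm y
  calc ‖(1 - EE h j) y‖ ≤ ‖1 - EE h j‖ * ‖y‖ := h4
    _ ≤ 1 * ‖y‖ := mul_le_mul_of_nonneg_right h3 (norm_nonneg _)
    _ = ‖y‖ := one_mul _

include hs hp in
theorem EE_close (y : K) (hy : ‖y‖ = 1) (hk : ∀ u, h u = 0 → ⟪y, u⟫_ℂ = 0) (ε : ℝ) (hε : 0 < ε) :
    ∃ j₀ : ℕ, ∀ j ≥ j₀, 1 - ε ≤ (⟪EE h j y, y⟫_ℂ).re := by
  have h1 : y ∈ h.kerᗮ := by
    rw [Submodule.mem_orthogonal']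
    intro u hu
    exact hk u hu
  rw [ContinuousLinearMap.orthogonal_ker] at h1
  have h2 : ContinuousLinearMap.adjoint h = h := hs
  rw [h2] at h1
  have h3 : y ∈ closure ((h.range : Submodule ℂ K) : Set K) := h1
  rw [Metric.mem_closure_iff] at h3
  obtain ⟨z, hz, hyz⟩ := h3 (ε / 2) (by positivity)
  obtain ⟨u, rfl⟩ := hz
  obtain ⟨N, hN⟩ := exists_nat_gt (2 * ‖u‖ / ε)
  refine ⟨N + 1, fun j hj => ?_⟩
  have hj1 : 1 ≤ j := by omega
  have hj' : (0 : ℝ) < j := by exact_mod_cast hj1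
  have h4 : ‖(1 - EE h j) y‖ ≤ ε := by
    have h5 : (1 - EE h j) y = (1 - EE h j) (y - h u) + (1 - EE h j) (h u) := by
      rw [← map_add, sub_add_cancel]
    rw [h5]
    refine (norm_add_le _ _).trans ?_
    have h6 := one_sub_EE_norm hs hp j (y - h u)
    have h7 := EE_h hs hp j hj1 u
    have h8 : ‖y - h u‖ < ε / 2 := by
      rw [← dist_eq_norm]
      exact hyz
    have h9 : 1 / (j : ℝ) * ‖u‖ ≤ ε / 2 := by
      rw [one_div, inv_mul_le_iff₀ hj']
      rw [div_lt_iff₀ hε] at hN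
      have h10 : (N : ℝ) ≤ j := by exact_mod_cast (by omega : N ≤ j)
      nlinarith
    linarith
  have h5 : (⟪(1 - EE h j) y, y⟫_ℂ).re ≤ ε := by
    calc (⟪(1 - EE h j) y, y⟫_ℂ).re ≤ ‖⟪(1 - EE h j) y, y⟫_ℂ‖ := Complex.re_le_norm _
      _ ≤ ‖(1 - EE h j) y‖ * ‖y‖ := norm_inner_le_norm _ _
      _ ≤ ε := by rw [hy, mul_one]; exact h4
  rw [sub_apply, inner_sub_left, Complex.sub_re] at h5
  have h6 : (⟪(1 : Op K) y, y⟫_ℂ).re = 1 := by
    rw [one_apply_eq_self]
    have := inner_self_eq_norm_sq (𝕜 := ℂ) y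
    rw [hy] at this
    simpa using this
  linarith

end

theorem s_BLK : S_BLK := by
  intro K _ _ _ h hs hp v w hv hw hvk hwk hvt hwt ε hε
  have step : ∀ p : ℕ × ℕ, ∃ q : ℕ × ℕ, p.2 < q.2 ∧ p.1 < q.1 ∧
      (p.1 : ℝ) * (⟪h (v q.2), v q.2⟫_ℂ).re ≤ ε / 2 ∧
      (p.1 : ℝ) * (⟪h (w q.2), w q.2⟫_ℂ).re ≤ ε / 2 ∧
      1 - ε / 2 ≤ (⟪EE h q.1 (v q.2), v q.2⟫_ℂ).re ∧
      1 - ε / 2 ≤ (⟪EE h q.1 (w q.2), w q.2⟫_ℂ).re := by
    rintro ⟨a, n'⟩
    have hv1 : Tendsto (fun n => (a : ℝ) * (⟪h (v n), v n⟫_ℂ).re) atTop (𝓝 0) := by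
      have := hvt.const_mul (a : ℝ)
      rwa [mul_zero] at this
    have hw1 : Tendsto (fun n => (a : ℝ) * (⟪h (w n), w n⟫_ℂ).re) atTop (𝓝 0) := by
      have := hwt.const_mul (a : ℝ)
      rwa [mul_zero] at this
    have h1 := hv1.eventually_le_const (u := ε / 2) (by positivity)
    have h2 := hw1.eventually_le_const (u := ε / 2) (by positivity)
    obtain ⟨n, hn1, hn2, hn3⟩ := (h1.and (h2.and (eventually_gt_atTop n'))).exists
    obtain ⟨j1, hj1⟩ := EE_close hs hp (v n) (hv n) (hvk n) (ε / 2) (by positivity)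
    obtain ⟨j2, hj2⟩ := EE_close hs hp (w n) (hw n) (hwk n) (ε / 2) (by positivity)
    exact ⟨(max (a + 1) (max j1 j2), n), hn3, lt_of_lt_of_le (Nat.lt_succ_self a)
      (le_max_left _ _), hn1, hn2,
      hj1 _ ((le_max_left _ _).trans (le_max_right _ _)),
      hj2 _ ((le_max_right _ _).trans (le_max_right _ _))⟩
  choose f hf using step
  set s : ℕ → ℕ × ℕ := fun k => f^[k] (0, 0) with hsdef
  have hss : ∀ k, s (k + 1) = f (s k) := fun k => Function.iterate_succ_apply' f k (0, 0)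
  have hPk : ∀ k, (s k).1 ≤ (s (k + 1)).1 := fun k => by
    rw [hss k]
    exact (hf (s k)).2.1.le
  have hsub : ∀ k y, (⟪(EE h (s (k + 1)).1 - EE h (s k).1) y, y⟫_ℂ).re =
      (⟪EE h (s (k + 1)).1 y, y⟫_ℂ).re - (⟪EE h (s k).1 y, y⟫_ℂ).re := by
    intro k y
    rw [sub_apply, inner_sub_left, Complex.sub_re]
  refine ⟨fun k => (s (k + 1)).2, fun k => EE h (s (k + 1)).1 - EE h (s k).1, ?_, ?_, ?_, ?_, ?_,
    ?_, ?_⟩
  · refine strictMono_nat_of_lt_succ fun k => ?_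
    rw [hss (k + 1)]
    exact (hf (s (k + 1))).1
  · intro k S hS
    rw [mul_sub, sub_mul, EE_comm hs _ S hS, EE_comm hs _ S hS]
  · intro k
    exact (EE_self _).sub (EE_self _)
  · intro k y
    constructor
    · rw [hsub, sub_nonneg]
      exact re_mono (EE_mono hs hp (hPk k)) y
    · have h1 := re_mono (EE_diff_sq hs hp _ _ (hPk k)) y
      refine le_trans (le_of_eq ?_) h1
      have h2 : IsSelfAdjoint (EE h (s (k + 1)).1 - EE h (s k).1) := (EE_self _).sub (EE_self _)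
      have h3 : ContinuousLinearMap.adjoint (EE h (s (k + 1)).1 - EE h (s k).1) =
          EE h (s (k + 1)).1 - EE h (s k).1 := h2
      rw [mul_apply_eq_comp]
      conv_rhs => rw [← h3]
      rw [ContinuousLinearMap.adjoint_inner_left, h3]
      have := inner_self_eq_norm_sq (𝕜 := ℂ) ((EE h (s (k + 1)).1 - EE h (s k).1) y)
      exact this.symm
  · intro m y
    have h1 : ∑ k ∈ Finset.range m, (⟪(EE h (s (k + 1)).1 - EE h (s k).1) y, y⟫_ℂ).re =
        (⟪EE h (s m).1 y, y⟫_ℂ).re - (⟪EE h (s 0).1 y, y⟫_ℂ).re := by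
      rw [Finset.sum_congr rfl fun k _ => hsub k y]
      exact Finset.sum_range_sub (fun k => (⟪EE h (s k).1 y, y⟫_ℂ).re) m
    rw [h1]
    have h2 := re_mono (EE_le_one (h := h) (s m).1) y
    have h3 := re_mono (EE_nonneg hs hp (s 0).1) y
    have h4 : (⟪(1 : Op K) y, y⟫_ℂ).re = ‖y‖ ^ 2 := inner_self_eq_norm_sq (𝕜 := ℂ) y
    have h5 : (⟪(0 : Op K) y, y⟫_ℂ).re = 0 := by simp
    linarith
  · intro k
    rw [hsub]
    have h1 := hf (s k)
    rw [← hss k] at h1
    have h2 := EE_small hs (s k).1 (v (s (k + 1)).2)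
    linarith [h1.2.2.1, h1.2.2.2.2.1]
  · intro k
    rw [hsub]
    have h1 := hf (s k)
    rw [← hss k] at h1
    have h2 := EE_small hs (s k).1 (w (s (k + 1)).2)
    linarith [h1.2.2.2.1, h1.2.2.2.2.2]

end

end Pool.Agent.L7h97.RF
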