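import Pool.Agent.L7h97.RF.Bic

/-!
# Project RF: an operator in the double commutant is a functional on the predual (S_FUN)
-/

set_option autoImplicit false
set_option linter.unusedSectionVars false

open Filter Topology
open scoped InnerProductSpace

namespace Pool.Agent.L7h97.RF

open Pool.Agent.L7h17.RF

noncomputable section

variable {K : Type} [NormedAddCommGroup K] [InnerProductSpace ℂ K] [CompleteSpace K]

/-- Two sequences put together. -/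
def jn (x y : ℕ → K) : ℕ → K := fun i => Sum.elim x y (Equiv.natSumNatEquivNat.symm i)

theorem jn_hasSum {M : Type} [AddCommMonoid M] [TopologicalSpace M] [ContinuousAdd M]
    (g : K → K → M) (x y x' y' : ℕ → K) (a b : M)
    (ha : HasSum (fun i => g (x i) (x' i)) a) (hb : HasSum (fun i => g (y i) (y' i)) b) :
    HasSum (fun i => g (jn x y i) (jn x' y' i)) (a + b) := by
  have h : HasSum (fun j : ℕ ⊕ ℕ => g (Sum.elim x y j) (Sum.elim x' y' j)) (a + b) :=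
    HasSum.sum ha hb
  unfold jn
  generalize Equiv.natSumNatEquivNat.symm = e
  exact (e.hasSum_iff (f := fun j : ℕ ⊕ ℕ => g (Sum.elim x y j) (Sum.elim x' y' j))).2 h

/-- The same in the Hilbert space. -/
def jnl (x y : HS K) : HS K := ⟨jn x y, mem2 (by
  have h := jn_hasSum (fun u _ => ‖u‖ ^ 2) x y x y _ _ (sum2 x).hasSum (sum2 y).hasSum
  exact h.summable)⟩

theorem jnl_apply (x y : HS K) (i : ℕ) : jnl x y i = jn x y i := rfl

theorem jnl_inner (S : Op K) (x y x' y' : HS K) :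
    ⟪jnl x' y', dg S (jnl x y)⟫_ℂ = ⟪x', dg S x⟫_ℂ + ⟪y', dg S y⟫_ℂ := by
  have h1 := lp.hasSum_inner (𝕜 := ℂ) x' (dg S x)
  have h2 := lp.hasSum_inner (𝕜 := ℂ) y' (dg S y)
  have h3 := jn_hasSum (fun u v : K => ⟪v, S u⟫_ℂ) x y x' y' _ _ h1 h2
  have h4 := lp.hasSum_inner (𝕜 := ℂ) (jnl x' y') (dg S (jnl x y))
  have h5 : (fun i => ⟪jnl x' y' i, dg S (jnl x y) i⟫_ℂ) =
      fun i => ⟪jn x' y' i, S (jn x y i)⟫_ℂ := by
    funext i
    rw [dg_apply, jnl_apply, jnl_apply]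
  rw [h5] at h4
  exact h4.unique h3

/-- A function and the value of the functional. -/
def RepR {G : Type} (V : G → Op K) (T : Op K) (f : G → ℂ) (v : ℂ) : Prop :=
  ∃ x y : HS K, (∀ s, f s = ⟪y, dg (V s) x⟫_ℂ) ∧ v = ⟪y, dg T x⟫_ℂ

theorem RepR.add {G : Type} {V : G → Op K} {T : Op K} {f g : G → ℂ} {v w : ℂ}
    (h1 : RepR V T f v) (h2 : RepR V T g w) : RepR V T (fun s => f s + g s) (v + w) := by
  obtain ⟨x, x', hx, rfl⟩ := h1
  obtain ⟨y, y', hy, rfl⟩ := h2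
  refine ⟨jnl x y, jnl x' y', fun s => ?_, ?_⟩
  · rw [jnl_inner]
    show f s + g s = _
    rw [hx, hy]
  · rw [jnl_inner]

theorem RepR.smul {G : Type} {V : G → Op K} {T : Op K} {f : G → ℂ} {v : ℂ}
    (h1 : RepR V T f v) (c : ℂ) : RepR V T (fun s => c * f s) (c * v) := by
  obtain ⟨x, x', hx, rfl⟩ := h1
  refine ⟨c • x, x', fun s => ?_, ?_⟩
  · rw [map_smul, inner_smul_right]
    show c * f s = _
    rw [hx]
  · rw [map_smul, inner_smul_right]

theorem RepR.unique (hBIC : S_BIC) {G : Type} [Group G] {V : G → Op K} (hV : URep V) {T : Op K}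
    (hT : T ∈ Bic V) {f g : G → ℂ} (hfg : ∀ s, f s = g s) {v w : ℂ} (h1 : RepR V T f v)
    (h2 : RepR V T g w) : v = w := by
  obtain ⟨x, y, hx, h3⟩ := h1.add (h2.smul (-1))
  have h4 := hBIC G K V hV T hT x y (sum2 x) (sum2 y) (fun s => by
    have h5 : f s + -1 * g s = ⟪y, dg (V s) x⟫_ℂ := hx s
    have h6 : f s + -1 * g s = 0 := by rw [hfg s]; ring
    have h7 : ⟪y, dg (V s) x⟫_ℂ = ∑' i, ⟪y i, V s (x i)⟫_ℂ := lp.inner_eq_tsum _ _
    rw [← h7, ← h5, h6])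
  rw [lp.inner_eq_tsum] at h3
  have h5 : v + -1 * w = 0 := h3.trans h4
  linear_combination h5

theorem dg_norm (T : Op K) (x : HS K) : ‖dg T x‖ ≤ ‖T‖ * ‖x‖ := by
  have h1 : ‖dg T x‖ ^ 2 ≤ (‖T‖ * ‖x‖) ^ 2 := by
    rw [norm2, mul_pow, norm2 x, ← tsum_mul_left]
    refine Summable.tsum_le_tsum (fun i => ?_) (sum2 _) ((sum2 x).mul_left _)
    rw [← mul_pow]
    exact pow_le_pow_left₀ (norm_nonneg _) (T.le_opNorm _) 2
  exact le_of_pow_le_pow_left₀ two_ne_zero (by positivity) h1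

theorem s_FUN (hBIC : S_BIC) : S_FUN := by
  classical
  intro G K _ _ _ _ V hV A _ _ M T hT
  have key : ∀ (a : A) (ε : ℝ), 0 < ε → ∃ v, RepR V T (M.fn a) v ∧ ‖v‖ ≤ ‖T‖ * (‖a‖ + ε) := by
    intro a ε hε
    obtain ⟨ξ, η, hξ, hη, hn, hf⟩ := M.rep a ε hε
    let x : HS K := ⟨ξ, mem2 hξ⟩
    let y : HS K := ⟨η, mem2 hη⟩
    have hx : ‖x‖ = Real.sqrt (∑' i, ‖ξ i‖ ^ 2) := by
      rw [← Real.sqrt_sq (norm_nonneg x), norm2]
    have hy : ‖y‖ = Real.sqrt (∑' i, ‖η i‖ ^ 2) := by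
      rw [← Real.sqrt_sq (norm_nonneg y), norm2]
    refine ⟨⟪y, dg T x⟫_ℂ, ⟨x, y, fun s => ?_, rfl⟩, ?_⟩
    · rw [lp.inner_eq_tsum, hf s]
      rfl
    · calc ‖⟪y, dg T x⟫_ℂ‖ ≤ ‖y‖ * ‖dg T x‖ := norm_inner_le_norm _ _
        _ ≤ ‖y‖ * (‖T‖ * ‖x‖) := mul_le_mul_of_nonneg_left (dg_norm T x) (norm_nonneg _)
        _ = ‖T‖ * (‖x‖ * ‖y‖) := by ring
        _ ≤ ‖T‖ * (‖a‖ + ε) := by
            apply mul_le_mul_of_nonneg_left _ (norm_nonneg _)
            rw [hx, hy]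
            exact hn
  choose τ hτ hτn using fun a => key a 1 one_pos
  have hadd : ∀ a b, τ (a + b) = τ a + τ b := fun a b =>
    RepR.unique hBIC hV hT (fun s => M.add a b s) (hτ (a + b)) ((hτ a).add (hτ b))
  have hsmul : ∀ (c : ℂ) a, τ (c • a) = c * τ a := fun c a =>
    RepR.unique hBIC hV hT (fun s => M.smul c a s) (hτ (c • a)) ((hτ a).smul c)
  have hbd : ∀ a, ‖τ a‖ ≤ ‖T‖ * ‖a‖ := by
    intro a
    apply le_of_forall_pos_le_add
    intro δ hδ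
    obtain ⟨v, hv, hvn⟩ := key a (δ / (‖T‖ + 1)) (by positivity)
    have h1 : τ a = v := RepR.unique hBIC hV hT (fun _ => rfl) (hτ a) hv
    rw [h1]
    refine hvn.trans ?_
    rw [mul_add]
    have h2 : ‖T‖ * (δ / (‖T‖ + 1)) ≤ δ := by
      rw [mul_div_assoc', div_le_iff₀ (by positivity)]
      nlinarith [norm_nonneg T]
    linarith
  let τl : A →ₗ[ℂ] ℂ :=
    { toFun := τ
      map_add' := hadd
      map_smul' := fun c a => hsmul c a }
  refine ⟨τl.mkContinuous ‖T‖ hbd, LinearMap.mkContinuous_norm_le _ (norm_nonneg _) _, ?_⟩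
  intro ξ η
  show τ (M.co ξ η) = _
  refine RepR.unique hBIC hV hT (fun _ => rfl) (hτ _) ?_
  have h1 : ∀ S : Op K, ⟪(lp.single 2 0 η : HS K), dg S (lp.single 2 0 ξ)⟫_ℂ = ⟪η, S ξ⟫_ℂ := by
    intro S
    rw [dg_single, lp.inner_single_left, lp.single_apply_self]
  exact ⟨lp.single 2 0 ξ, lp.single 2 0 η, fun s => by rw [h1, M.fn_co], (h1 T).symm⟩

end

end Pool.Agent.L7h97.RF
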